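import Pool.Agent.W902.C6.Stm

/-!
Standard configurations have no six points in general position.
-/

set_option autoImplicit false

open Pool.Agent.H800R3

namespace Pool.Agent.W999.C6.CLS

open Pool.Agent.W902.C6

theorem genPos_of_sameConf {P Q : Finset Pt} (h : SameConf P Q) (hP : GenPos P) : GenPos Q := by
  obtain ⟨e, he⟩ := sameConf_symm h
  intro a ha b hb c hc hab hbc hac
  rw [← he ⟨a, ha⟩ ⟨b, hb⟩ ⟨c, hc⟩]
  have hne : ∀ x y : Q, x.1 ≠ y.1 → (e x).1 ≠ (e y).1 := by
    intro x y hxy h1
    exact hxy (congrArg Subtype.val (e.injective (Subtype.ext h1)))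
  exact hP _ (e ⟨a, ha⟩).2 _ (e ⟨b, hb⟩).2 _ (e ⟨c, hc⟩).2 (hne _ _ hab) (hne _ _ hbc)
    (hne _ _ hac)

theorem orient_eq_zero {a b c : Pt} (h : D a b c = 0) : orient a b c = 0 := by
  unfold orient
  rw [h]
  exact sign_zero

theorem card_le {e : Bool} {A T : Finset ℝ} {S : Finset Pt} (hS : S ⊆ std e A T)
    (hg : GenPos S) : S.card ≤ 5 := by
  classical
  have h1 : S ⊆ {((0 : ℝ), (0 : ℝ))} ∪ (S.filter (fun x => x.2 = 1) ∪
      S.filter (fun x => x.1 = 1)) := by
    intro x hx
    have h2 := hS hx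
    unfold std at h2
    rw [Finset.mem_union, Finset.mem_union, Finset.mem_image, Finset.mem_image] at h2
    rw [Finset.mem_union, Finset.mem_union, Finset.mem_filter, Finset.mem_filter,
      Finset.mem_singleton]
    rcases h2 with h2 | ⟨s, -, rfl⟩ | ⟨t, -, rfl⟩
    · left
      cases e with
      | true =>
        rw [if_pos rfl] at h2
        exact Finset.mem_singleton.1 h2
      | false =>
        rw [if_neg (by decide)] at h2
        exact absurd h2 (Finset.notMem_empty _)
    · exact Or.inr (Or.inl ⟨hx, rfl⟩)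
    · exact Or.inr (Or.inr ⟨hx, rfl⟩)
  have h2 : (S.filter (fun x => x.2 = 1)).card ≤ 2 := by
    by_contra hc
    push Not at hc
    obtain ⟨a, ha, b, hb, c, hc', hab, hac, hbc⟩ := Finset.two_lt_card.1 hc
    rw [Finset.mem_filter] at ha hb hc'
    refine hg a ha.1 b hb.1 c hc'.1 hab hbc hac (orient_eq_zero ?_)
    unfold D
    rw [ha.2, hb.2, hc'.2]
    ring
  have h3 : (S.filter (fun x => x.1 = 1)).card ≤ 2 := by
    by_contra hc
    push Not at hc
    obtain ⟨a, ha, b, hb, c, hc', hab, hac, hbc⟩ := Finset.two_lt_card.1 hc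
    rw [Finset.mem_filter] at ha hb hc'
    refine hg a ha.1 b hb.1 c hc'.1 hab hbc hac (orient_eq_zero ?_)
    unfold D
    rw [ha.2, hb.2, hc'.2]
    ring
  have h4 := (Finset.card_le_card h1).trans ((Finset.card_union_le _ _).trans
    (Nat.add_le_add_left (Finset.card_union_le _ _) _))
  rw [Finset.card_singleton] at h4
  omega

theorem main : S_cls := by
  intro e A T
  have h : mg (std e A T) ≤ 5 := by
    unfold mg
    refine csSup_le ⟨0, ∅, ⟨∅, Finset.empty_subset _, sameConf_refl _⟩, ?_, rfl⟩ ?_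
    · intro a ha
      exact absurd ha (Finset.notMem_empty _)
    · rintro m ⟨T', ⟨S', hS', hsame⟩, hg, rfl⟩
      have h1 : T'.card = S'.card := by
        obtain ⟨f, -⟩ := hsame
        simpa using Fintype.card_congr f
      rw [h1]
      exact card_le hS' (genPos_of_sameConf hsame hg)
  exact Nat.lt_succ_of_le h

end Pool.Agent.W999.C6.CLS
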